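import Pool.Agent.Helper61.XL.Rt
import Pool.Agent.Helper61.XL.Nb
import Pool.Agent.Helper61.XL.Qx
import Pool.Agent.Helper61.XL.Mr
import Pool.Agent.Helper61.XL.Mp
import Pool.Agent.Helper61.W.Wp

set_option autoImplicit false

/-!
# The extremal functions of Weil's quadratic form and Riemann's function xi

For `a > 0` minimise Weil's quadratic form `Q g` over the smooth functions `g` supported in `[-a, a]` with integral
one. Only the prime powers up to `exp (2 * a)` enter into `Q g`.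

* If the form is positive on `[-a, a]`, that is `0 < bottom a` (this is so for `a ≤ (log 3) / 2`), then the extremal
  function `φ` (the limit in `L²` of a minimising sequence) exists and is unique, all zeros of its Laplace transform
  `T φ` are simple and on the critical line, and the form is exactly the minimum times the square of the integral
  plus a positive sum of squares over these zeros.
* For two intervals the zeros interlace, the minimum strictly decreases and the transforms increase on the real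
  axis.
* The Riemann hypothesis holds if and only if the form is positive for all `a`, if and only if the infimum is finite
  for all `a`, if and only if there is an extremal function for all `a`.
* Under the Riemann hypothesis the zeros of `T φ` interlace with those of zeta and approximate all of them up to
  height `exp ((2 - η) * a)`, the weights converge to the multiplicities, and `T φ` converges to the product over the
  distinct zeros of zeta.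
* `T φ` converges to `xi s / xi (1 / 2)` if and only if the Riemann hypothesis holds and all nontrivial zeros are
  simple, and for this the convergence at one real point other than `1 / 2` suffices.
-/

namespace Pool.Agent.Helper61.MG.Ex

open MeasureTheory Filter Topology
open scoped ContDiff ComplexConjugate

/-- The two-sided Laplace transform, normalised at the critical line. -/
noncomputable def T (g : ℝ → ℂ) (s : ℂ) : ℂ := ∫ x : ℝ, g x * Complex.exp ((s - 1 / 2) * x)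

/-- The real part of the autocorrelation. -/
noncomputable def R (g : ℝ → ℂ) (u : ℝ) : ℝ := (∫ y : ℝ, g y * conj (g (y - u))).re

/-- Weil's quadratic form, defined by the arithmetic side of the explicit formula: the contribution of the
pole, the archimedean contribution and the sum over the prime powers. For smooth `g` of compact support it
equals the sum of `T g ρ * conj (T g (1 - conj ρ))` over the nontrivial zeros `ρ` of zeta
(`explicit_formula` below). -/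
noncomputable def Q (g : ℝ → ℂ) : ℝ :=
  2 * (∫ u in Set.Ioi (0 : ℝ), R g u * Real.exp (1 / 2 * u)) -
    (Real.eulerMascheroniConstant + Real.log Real.pi) * R g 0 +
    (∑' n : ℕ, (R g 0 / (n + 1) - 2 * ∫ u in Set.Ioi (0 : ℝ), R g u * Real.exp (-(2 * n + 5 / 2) * u))) -
    ∑' n : ℕ, 2 * (ArithmeticFunction.vonMangoldt n / Real.sqrt n) * R g (Real.log n)

/-- The smooth functions supported in `[-a, a]`. -/
def Test (a : ℝ) : Set (ℝ → ℂ) := {g | ContDiff ℝ ∞ g ∧ ∀ x, a < |x| → g x = 0}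

/-- The lower bound of the form relative to the square of the norm of `L²`. -/
noncomputable def bottom (a : ℝ) : ℝ := sInf {r | ∃ g ∈ Test a, ∫ x, ‖g x‖ ^ 2 = 1 ∧ r = Q g}

/-- The values of the form at the test functions of integral one. -/
def Vals (a : ℝ) : Set ℝ := {r | ∃ g ∈ Test a, ∫ x, g x = 1 ∧ r = Q g}

/-- The minimum. -/
noncomputable def least (a : ℝ) : ℝ := sInf (Vals a)

/-- Extremal functions: the functions of `L²` supported in `[-a, a]` which are limits of minimising sequences of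
test functions of integral one, where the infimum has to be finite. -/
def Extremal (a : ℝ) (φ : ℝ → ℂ) : Prop :=
  MemLp φ 2 (volume : Measure ℝ) ∧ (∀ x, a < |x| → φ x = 0) ∧ BddBelow (Vals a) ∧
    ∃ g : ℕ → ℝ → ℂ, (∀ n, g n ∈ Test a ∧ ∫ x, g n x = 1) ∧
      Tendsto (fun n => ∫ x, ‖g n x - φ x‖ ^ 2) atTop (𝓝 0) ∧ Tendsto (fun n => Q (g n)) atTop (𝓝 (least a))

/-- The extremal function `φ` with the positive weights `ν` on the zeros of its transform, which are simple and on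
the critical line: the form is `least a` times the square of the integral plus the sum of squares over the zeros. -/
def Represents (a : ℝ) (φ : ℝ → ℂ) (ν : ℂ → ℝ) : Prop :=
  Extremal a φ ∧ (∀ s : ℂ, T φ s = 0 → s.re = 1 / 2 ∧ deriv (T φ) s ≠ 0 ∧ 0 < ν s) ∧
    ∀ g ∈ Test a, HasSum (fun s : {s : ℂ // T φ s = 0} => ν s * ‖T g s‖ ^ 2) (Q g - least a * ‖∫ x, g x‖ ^ 2)

/-- The sum of the weights of the zeros in the set `B`. -/
noncomputable def mass (φ : ℝ → ℂ) (ν : ℂ → ℝ) (B : Set ℂ) : ℝ := ∑' s : {s : ℂ // T φ s = 0 ∧ s ∈ B}, ν s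

/-- Near `w` the weights converge doubly exponentially fast to the multiplicity of `w` as a zero of zeta: with
`u = exp (-c * exp (2 * a))` the sum of the weights of the zeros within `u` of `w` differs from the order of zeta
at `w` by at most `u`, and the sum of the weights of the other zeros within `r` of `w` is at most `u`. -/
def MassesConverge (w : ℂ) : Prop :=
  ∃ c r A : ℝ, 0 < c ∧ 0 < r ∧ ∀ a : ℝ, A ≤ a → 0 < a → ∀ (φ : ℝ → ℂ) (ν : ℂ → ℝ), Represents a φ ν →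
    |mass φ ν {s | ‖s - w‖ ≤ Real.exp (-(c * Real.exp (2 * a)))} - (analyticOrderNatAt riemannZeta w : ℝ)| ≤
        Real.exp (-(c * Real.exp (2 * a))) ∧
      mass φ ν {s | Real.exp (-(c * Real.exp (2 * a))) < ‖s - w‖ ∧ ‖s - w‖ < r} ≤
        Real.exp (-(c * Real.exp (2 * a)))

/-- There is an extremal function for every interval. -/
def AllExist : Prop := ∀ a : ℝ, 0 < a → ∃ φ : ℝ → ℂ, Extremal a φ

/-- The transforms of the extremal functions converge to `P`, uniformly on bounded sets. -/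
def ConvergeTo (P : ℂ → ℂ) : Prop :=
  ∀ r ε : ℝ, 0 < ε → ∃ A : ℝ, ∀ a : ℝ, A ≤ a → 0 < a → ∀ φ : ℝ → ℂ, Extremal a φ →
    ∀ s : ℂ, ‖s‖ ≤ r → ‖T φ s - P s‖ < ε

/-- The transforms of the extremal functions converge to `P` at the point `s`. -/
def ConvergeAt (P : ℂ → ℂ) (s : ℂ) : Prop :=
  ∀ ε : ℝ, 0 < ε → ∃ A : ℝ, ∀ a : ℝ, A ≤ a → 0 < a → ∀ φ : ℝ → ℂ, Extremal a φ → ‖T φ s - P s‖ < ε

/-- Riemann's function `xi s = s * (s - 1) / 2 * π ^ (-s / 2) * Γ (s / 2) * ζ s`, an entire function. -/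
noncomputable def xi (s : ℂ) : ℂ := (s * (s - 1) * completedRiemannZeta₀ s + 1) / 2

/-- All nontrivial zeros of zeta are simple. -/
def AllSimple : Prop := ∀ ρ : ℂ, riemannZeta ρ = 0 → 0 < ρ.re → ρ.re < 1 → deriv riemannZeta ρ ≠ 0

section proofs

open Pool.Agent.Helper61 Pool.Agent.Helper61.W Pool.Agent.Helper61.W.GS Pool.Agent.V11271.LI

lemma Q_eq {a : ℝ} {g : ℝ → ℂ} (hg : g ∈ Test a) : Q g = (Wf g g).re := by
  have h : g ∈ Ts a := hg
  rw [Wf_self (Ts.tf h), Complex.ofReal_re]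
  rfl

/-- Weil's explicit formula. -/
theorem explicit_formula {a : ℝ} {g : ℝ → ℂ} (hg : g ∈ Test a) :
    HasSum (fun ρ : {ρ : ℂ // riemannZeta ρ = 0 ∧ 0 < ρ.re ∧ ρ.re < 1} =>
      (analyticOrderNatAt riemannZeta (ρ : ℂ) : ℂ) * (T g ρ * conj (T g (1 - conj (ρ : ℂ))))) (Q g : ℂ) := by
  have h : g ∈ Ts a := hg
  have h1 := (summable_wt (Ts.tf h) (Ts.tf h)).hasSum
  have e : (Q g : ℂ) = ∑' ρ : Zr, wt g g ρ := by
    have h2 : Wf g g = ∑' ρ : Zr, wt g g ρ := rfl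
    rw [← h2, Wf_self (Ts.tf h)]
    rfl
  rw [← e] at h1
  have e2 : (fun ρ : {ρ : ℂ // riemannZeta ρ = 0 ∧ 0 < ρ.re ∧ ρ.re < 1} =>
      (analyticOrderNatAt riemannZeta (ρ : ℂ) : ℂ) * (T g ρ * conj (T g (1 - conj (ρ : ℂ))))) = wt g g := by
    funext ρ
    have e3 : 1 - conj (ρ : ℂ) - 1 / 2 = -conj (zz ρ) := by
      unfold zz
      rw [map_sub]
      have : conj (1 / 2 : ℂ) = 1 / 2 := by
        have : (1 / 2 : ℂ) = ((1 / 2 : ℝ) : ℂ) := by push_cast; rfl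
        rw [this, Complex.conj_ofReal]
      rw [this]
      ring
    have e4 : T g (1 - conj (ρ : ℂ)) = LT g (-conj (zz ρ)) := by
      rw [← e3]
      rfl
    have e5 : ((mm ρ : ℝ) : ℂ) = (analyticOrderNatAt riemannZeta (ρ : ℂ) : ℂ) := by
      unfold mm
      push_cast
      rfl
    rw [e4]
    unfold wt
    rw [e5]
    rfl
  rw [e2]
  exact h1

lemma bottom_eq (a : ℝ) : bottom a = GA.zetaDat.low a := by
  have h : {r | ∃ g ∈ Test a, ∫ x, ‖g x‖ ^ 2 = 1 ∧ r = Q g} =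
      {r : ℝ | ∃ g : ℝ → ℂ, g ∈ Ts a ∧ ∫ x, ‖g x‖ ^ 2 = 1 ∧ r = (GA.zetaDat.Wf g g).re} := by
    ext r
    constructor
    · rintro ⟨g, hg, h1, h2⟩
      exact ⟨g, hg, h1, by rw [h2, Q_eq hg, GA.zeta_Wf]⟩
    · rintro ⟨g, hg, h1, h2⟩
      exact ⟨g, hg, h1, by rw [h2, Q_eq (a := a) hg, GA.zeta_Wf]⟩
  unfold bottom GA.Dat.low
  rw [h]

lemma bottom_log3 {a : ℝ} (ha : 0 < a) (h : a ≤ Real.log 3 / 2) : 0 < bottom a := by
  rw [bottom_eq]
  refine lt_of_lt_of_le (show (0 : ℝ) < 1 / 10 ^ 9 by norm_num) (le_csInf (GA.low_nonempty (D := GA.zetaDat) ha) ?_)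
  rintro _ ⟨g, hg, hn, rfl⟩
  have hT : g ∈ Test a := hg
  have hs : ∀ x, x ∉ Set.Icc (-(Real.log 3 / 2)) (-(Real.log 3 / 2) + Real.log 3) → g x = 0 := by
    intro x hx
    apply hg.2
    by_contra hlt
    push Not at hlt
    obtain ⟨h1, h2⟩ := abs_le.mp hlt
    exact hx ⟨by linarith, by linarith⟩
  obtain ⟨_, r, hr, hle⟩ := Pool.Agent.Helper61.W.weil_pos (g := g) (c := -(Real.log 3 / 2)) hg.1 hs
  have e := (explicit_formula hT).tsum_eq
  have e2 : (Q g : ℂ) = (r : ℂ) := by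
    rw [← e, ← hr]
    refine tsum_congr fun ρ => ?_
    unfold T mm W.Tr
    push_cast
    rfl
  rw [hn, mul_one] at hle
  rw [GA.zeta_Wf, ← Q_eq hT, Complex.ofReal_inj.mp e2]
  exact hle

lemma LT_zero (g : ℝ → ℂ) : W.LT g 0 = ∫ x, g x := by
  unfold W.LT
  simp

lemma vals_eq (a : ℝ) : Vals a = XL.vals GA.zetaDat a := by
  ext r
  constructor
  · rintro ⟨g, hg, h1, h2⟩
    exact ⟨g, hg, by rw [LT_zero, h1], by rw [h2, Q_eq hg, GA.zeta_Wf]⟩
  · rintro ⟨g, hg, h1, h2⟩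
    exact ⟨g, hg, by rw [← LT_zero, h1], by rw [h2, Q_eq (a := a) hg, GA.zeta_Wf]⟩

lemma least_eq (a : ℝ) : least a = XL.ival GA.zetaDat a := by
  unfold least XL.ival
  rw [vals_eq]

lemma extremal_iff (a : ℝ) (φ : ℝ → ℂ) : Extremal a φ ↔ XL.IsX GA.zetaDat a φ := by
  unfold Extremal XL.IsX
  rw [vals_eq, least_eq]
  constructor
  · rintro ⟨h1, h2, h3, g, hg, h4, h5⟩
    exact ⟨h1, h2, h3, g, fun n => ⟨(hg n).1, by rw [LT_zero, (hg n).2]⟩, h4, h5.congr fun n => Q_eq (hg n).1⟩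
  · rintro ⟨h1, h2, h3, g, hg, h4, h5⟩
    exact ⟨h1, h2, h3, g, fun n => ⟨(hg n).1, by rw [← LT_zero, (hg n).2]⟩, h4,
      h5.congr fun n => (Q_eq (a := a) (hg n).1).symm⟩

lemma T_eq (φ : ℝ → ℂ) (s : ℂ) : T φ s = W.LT φ (s - 1 / 2) := rfl

lemma xi_div (s : ℂ) : xi s / xi (1 / 2) = XL.Xn (s - 1 / 2) := by
  have h : ∀ s : ℂ, xi s = Xi s / 2 := fun s => rfl
  unfold XL.Xn
  rw [h, h, div_div_div_cancel_right₀ two_ne_zero]
  congr 2
  ring

/-- the product over the distinct zeros -/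
noncomputable def Pd (s : ℂ) : ℂ := XL.Pr GA.zetaDat (s - 1 / 2)

/-- the underlying zero -/
def base (ρ : XL.Pz GA.zetaDat) : Zr := ρ.1

lemma base_im (ρ : XL.Pz GA.zetaDat) : 0 < (base ρ : ℂ).im := by
  have h : 0 < (zz (base ρ)).im := ρ.2
  rwa [zz_im] at h

lemma im_base (ρ : Zr) (h : 0 < (ρ : ℂ).im) : 0 < (GA.zetaDat.z ρ).im := by
  have e : (GA.zetaDat.z ρ).im = (ρ : ℂ).im := zz_im ρ
  rw [e]
  exact h

/-- the zeros in the upper half plane -/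
noncomputable def upper : {ρ : ℂ // riemannZeta ρ = 0 ∧ 0 < ρ.re ∧ ρ.re < 1 ∧ 0 < ρ.im} ≃ XL.Pz GA.zetaDat where
  toFun ρ := ⟨(⟨ρ, ρ.2.1, ρ.2.2.1, ρ.2.2.2.1⟩ : Zr), im_base ⟨ρ, ρ.2.1, ρ.2.2.1, ρ.2.2.2.1⟩ ρ.2.2.2.2⟩
  invFun ρ := ⟨(base ρ : ℂ), (base ρ).2.1, (base ρ).2.2.1, (base ρ).2.2.2, base_im ρ⟩
  left_inv _ := rfl
  right_inv _ := rfl

lemma prod_upper (hRH : ∀ ρ : Zr, (zz ρ).re = 0) (s : ℂ) :
    HasProd (fun ρ : {ρ : ℂ // riemannZeta ρ = 0 ∧ 0 < ρ.re ∧ ρ.re < 1 ∧ 0 < ρ.im} =>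
      1 - ((s - 1 / 2) / ((ρ : ℂ) - 1 / 2)) ^ 2) (Pd s) := by
  have h := XL.pr_prod (D := GA.zetaDat) (s - 1 / 2)
  rw [← upper.hasProd_iff] at h
  refine h.congr_fun fun ρ => ?_
  simp only [Function.comp]
  set ρ' : Zr := ⟨ρ, ρ.2.1, ρ.2.2.1, ρ.2.2.2.1⟩ with hρ'
  have h1 : XL.gm (upper ρ) = (ρ : ℂ).im := zz_im ρ'
  have h2 : (ρ : ℂ) - 1 / 2 = ((ρ : ℂ).im : ℂ) * Complex.I := by
    have h3 := XL.z_eq (XL.zSy hRH) (ρ' : Zr)
    have h4 : zz ρ' = ((zz ρ').im : ℂ) * Complex.I := h3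
    rw [zz_im] at h4
    exact h4
  rw [h1, h2, div_pow, mul_pow, Complex.I_sq]
  push_cast
  ring

lemma convergeTo_of (hRH : ∀ ρ : Zr, (zz ρ).re = 0) : ConvergeTo Pd := by
  intro r ε hε
  obtain ⟨A, hA⟩ := XL.conv_fun (XL.zSy hRH) (r + 1 / 2) hε
  refine ⟨A, fun a haA ha φ hφ s hs => ?_⟩
  rw [extremal_iff] at hφ
  rw [T_eq]
  refine hA a haA ha φ hφ _ ((norm_sub_le _ _).trans (add_le_add hs ?_))
  norm_num

lemma exist_of (hRH : ∀ ρ : Zr, (zz ρ).re = 0) : AllExist := by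
  intro a ha
  obtain ⟨φ, hφ, _⟩ := XL.one_interval ha (XL.low_pos (D := GA.zetaDat) hRH ha)
  exact ⟨φ, (extremal_iff a φ).mpr hφ⟩

lemma rh_of_bdd (h : ∀ a : ℝ, 0 < a → BddBelow (Vals a)) : ∀ ρ : Zr, (zz ρ).re = 0 := by
  by_contra hcon
  push Not at hcon
  obtain ⟨a, ha, hb⟩ := XL.off_unbdd (D := GA.zetaDat) hcon
  apply hb
  have := h a ha
  rw [vals_eq] at this
  exact this

lemma rh_of_exist (h : AllExist) : ∀ ρ : Zr, (zz ρ).re = 0 :=
  rh_of_bdd fun a ha => by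
    obtain ⟨φ, hφ⟩ := h a ha
    exact hφ.2.2.1

lemma rh_of_pos (h : ∀ a : ℝ, 0 < a → 0 < bottom a) : ∀ ρ : Zr, (zz ρ).re = 0 := by
  by_contra hcon
  push Not at hcon
  have h1 := GA.low_atBot (D := GA.zetaDat) hcon
  obtain ⟨a, ha1, ha2⟩ := ((tendsto_atBot.mp h1 0).and (eventually_gt_atTop (0 : ℝ))).exists
  have h2 := h a ha2
  rw [bottom_eq] at h2
  linarith

lemma pointwise_unique {P P' : ℂ → ℂ} {s : ℂ} (he : AllExist) (h1 : ConvergeAt P s) (h2 : ConvergeAt P' s) :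
    P s = P' s := by
  by_contra hne
  have hd : 0 < ‖P s - P' s‖ / 2 := by
    have := norm_pos_iff.mpr (sub_ne_zero.mpr hne)
    positivity
  obtain ⟨A1, hA1⟩ := h1 _ hd
  obtain ⟨A2, hA2⟩ := h2 _ hd
  set a : ℝ := max (max A1 A2) 1 with ha
  have hap : 0 < a := lt_of_lt_of_le one_pos (le_max_right _ _)
  obtain ⟨φ, hφ⟩ := he a hap
  have h3 := hA1 a ((le_max_left _ _).trans (le_max_left _ _)) hap φ hφ
  have h4 := hA2 a ((le_max_right _ _).trans (le_max_left _ _)) hap φ hφ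
  have h5 : ‖P s - P' s‖ ≤ ‖T φ s - P s‖ + ‖T φ s - P' s‖ := by
    have e : P s - P' s = -(T φ s - P s) + (T φ s - P' s) := by ring
    rw [e]
    refine (norm_add_le _ _).trans ?_
    rw [norm_neg]
  linarith

lemma at_of_to {P : ℂ → ℂ} (h : ConvergeTo P) (s : ℂ) : ConvergeAt P s := by
  intro ε hε
  obtain ⟨A, hA⟩ := h ‖s‖ ε hε
  exact ⟨A, fun a haA ha φ hφ => hA a haA ha φ hφ s le_rfl⟩

lemma simple_of_at {x : ℝ} (hx : x ≠ 1 / 2) (he : AllExist) (h : ConvergeAt (fun s => xi s / xi (1 / 2)) x) :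
    AllSimple := by
  have hRH := rh_of_exist he
  have h1 := pointwise_unique he h (at_of_to (convergeTo_of hRH) x)
  intro ρ hρ h2 h3 hd
  have h4 := XL.pr_ne hRH ⟨⟨ρ, hρ, h2, h3⟩, hd⟩ (x := x - 1 / 2) (sub_ne_zero.mpr hx)
  apply h4
  have e : (((x - 1 / 2 : ℝ)) : ℂ) = (x : ℂ) - 1 / 2 := by push_cast; rfl
  rw [e, ← xi_div]
  exact h1.symm

lemma to_of_simple (hRH : ∀ ρ : Zr, (zz ρ).re = 0) (hs : AllSimple) :
    ConvergeTo (fun s => xi s / xi (1 / 2)) := by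
  have h1 := convergeTo_of hRH
  have h2 : Pd = fun s => xi s / xi (1 / 2) := by
    funext s
    rw [xi_div]
    exact XL.pr_eq hRH (fun ρ => hs ρ ρ.2.1 ρ.2.2.1 ρ.2.2.2) _
  rwa [h2] at h1

lemma T_add (φ : ℝ → ℂ) (z : ℂ) : T φ (z + 1 / 2) = W.LT φ z := by
  rw [T_eq, add_sub_cancel_right]

/-- the zeros in the two normalisations -/
noncomputable def zeroEquiv (φ : ℝ → ℂ) : {z : ℂ // W.LT φ z = 0} ≃ {s : ℂ // T φ s = 0} where
  toFun z := ⟨z + 1 / 2, by rw [T_add]; exact z.2⟩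
  invFun s := ⟨s - 1 / 2, s.2⟩
  left_inv z := Subtype.ext (by simp)
  right_inv s := Subtype.ext (by simp)

lemma structure_of {a : ℝ} (ha : 0 < a) (hl : 0 < GA.zetaDat.low a) : ∃ (φ : ℝ → ℂ) (ν : ℂ → ℝ), Represents a φ ν ∧
    ∀ ψ : ℝ → ℂ, Extremal a ψ → ψ =ᵐ[volume] φ := by
  obtain ⟨φ, h1, h2, h3⟩ := XL.one_interval ha hl
  obtain ⟨ν, h4, h5⟩ := XL.quadrature ha hl h1.mem
  have e0 : ∀ z, W.LT φ z = ev a z (h1.1.toLp φ) := h1.LT_eq
  refine ⟨φ, fun s => ν (s - 1 / 2), ⟨(extremal_iff a φ).mpr h1, fun s hs => ?_, fun g hg => ?_⟩,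
    fun ψ hψ => h3 ψ ((extremal_iff a ψ).mp hψ)⟩
  · obtain ⟨h6, h7⟩ := h2 (s - 1 / 2) hs
    refine ⟨?_, ?_, h4 _ ?_⟩
    · have : (s - 1 / 2).re = s.re - 1 / 2 := by simp
      rw [this] at h6
      linarith
    · have e : T φ = fun s => W.LT φ (s - 1 / 2) := rfl
      rw [e, deriv_comp_sub_const (f := W.LT φ)]
      exact h7
    · rw [← e0]
      exact hs
  · have h6 := Complex.hasSum_re (h5 ⟨g, hg⟩ ⟨g, hg⟩)
    have e1 : (GA.zetaDat.Wf g g - (XL.ival GA.zetaDat a : ℂ) * (W.LT g 0 * conj (W.LT g 0))).re =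
        Q g - least a * ‖∫ x, g x‖ ^ 2 := by
      rw [Complex.mul_conj, Complex.normSq_eq_norm_sq, ← Complex.ofReal_mul, Complex.sub_re, Complex.ofReal_re,
        Q_eq hg, GA.zeta_Wf, least_eq, LT_zero]
    rw [← e1, ← (zeroEquiv φ).hasSum_iff]
    set E : {z : ℂ // W.LT φ z = 0} ≃ {w : ℂ // ev a w (h1.1.toLp φ) = 0} :=
      Equiv.subtypeEquivRight fun z => by rw [e0] with hE
    rw [← E.hasSum_iff] at h6
    refine Eq.mp (congrArg (fun f => HasSum f _) ?_) h6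
    funext z
    show ((ν z : ℂ) * (W.LT g z * conj (W.LT g z))).re = ν ((z : ℂ) + 1 / 2 - 1 / 2) * ‖T g ((z : ℂ) + 1 / 2)‖ ^ 2
    rw [T_add, add_sub_cancel_right, Complex.mul_conj, Complex.normSq_eq_norm_sq, ← Complex.ofReal_mul,
      Complex.ofReal_re]

lemma mass_eq (φ : ℝ → ℂ) (ν : ℂ → ℝ) (P : ℂ → Prop) [DecidablePred P] :
    mass φ ν {s | P s} = ∑' s : {s : ℂ // T φ s = 0}, if P s then ν s else 0 := by
  have h1 : mass φ ν {s | P s} = ∑' s : ℂ, Set.indicator {s : ℂ | T φ s = 0 ∧ P s} ν s :=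
    tsum_subtype {s : ℂ | T φ s = 0 ∧ P s} ν
  have h2 : (∑' s : {s : ℂ // T φ s = 0}, if P s then ν s else 0) =
      ∑' s : ℂ, Set.indicator {s : ℂ | T φ s = 0} (fun s => if P s then ν s else 0) s :=
    tsum_subtype {s : ℂ | T φ s = 0} (fun s => if P s then ν s else 0)
  rw [h1, h2]
  refine tsum_congr fun s => ?_
  by_cases h3 : T φ s = 0
  · by_cases h4 : P s
    · rw [Set.indicator_of_mem (show s ∈ {s : ℂ | T φ s = 0 ∧ P s} from ⟨h3, h4⟩),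
        Set.indicator_of_mem (show s ∈ {s : ℂ | T φ s = 0} from h3), if_pos h4]
    · rw [Set.indicator_of_notMem (show s ∉ {s : ℂ | T φ s = 0 ∧ P s} from fun h => h4 h.2),
        Set.indicator_of_mem (show s ∈ {s : ℂ | T φ s = 0} from h3), if_neg h4]
  · rw [Set.indicator_of_notMem (show s ∉ {s : ℂ | T φ s = 0 ∧ P s} from fun h => h3 h.1),
      Set.indicator_of_notMem (show s ∉ {s : ℂ | T φ s = 0} from h3)]

lemma mass_empty {φ : ℝ → ℂ} {ν : ℂ → ℝ} {B : Set ℂ} (h : ∀ s, T φ s = 0 → s ∉ B) : mass φ ν B = 0 := by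
  have : IsEmpty {s : ℂ // T φ s = 0 ∧ s ∈ B} := ⟨fun s => h s.1 s.2.1 s.2.2⟩
  unfold mass
  exact tsum_empty

lemma traceR_of {a : ℝ} {φ : ℝ → ℂ} {ν : ℂ → ℝ} (h : Represents a φ ν) :
    XL.TraceR GA.zetaDat a (least a) (fun s : {s : ℂ // T φ s = 0} => (s : ℂ) - 1 / 2) (fun s => ν s) := by
  obtain ⟨_, h1, h2⟩ := h
  refine ⟨fun s => ?_, fun s => (h1 s s.2).2.2.le, fun g => ?_⟩
  · have := (h1 s s.2).1
    simp [this]
  · have h3 := h2 g g.2
    rw [Q_eq g.2, ← LT_zero] at h3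
    exact h3

lemma masses_line (hRH : ∀ ρ : Zr, (zz ρ).re = 0) {w : ℂ} (hw : w.re = 1 / 2) : MassesConverge w := by
  classical
  have hw' : (w - 1 / 2).re = 0 := by simp [hw]
  obtain ⟨c1, A1, hc1, hsmall⟩ := XL.ival_small hRH
  obtain ⟨c, r, A, hc, hr, h⟩ := XL.zeta_mass_r hRH hw' (J := least) (c1 := c1) (A1 := A1) hc1
    (fun a ha => by
      rw [least_eq]
      exact (XL.ival_pos (D := GA.zetaDat) ha (XL.low_pos (D := GA.zetaDat) hRH ha)).le)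
    (fun a haA ha => by
      rw [least_eq]
      exact hsmall a haA ha)
  refine ⟨c, r, A, hc, hr, fun a haA ha φ ν hrep => ?_⟩
  obtain ⟨h1, h2⟩ := h a haA ha _ _ _ (traceR_of hrep)
  have e : ∀ s : {s : ℂ // T φ s = 0}, (s : ℂ) - 1 / 2 - (w - 1 / 2) = (s : ℂ) - w := fun s => by ring
  have e2 : 1 / 2 + (w - 1 / 2) = w := by ring
  simp only [e] at h1 h2
  rw [e2] at h1
  rw [mass_eq, mass_eq]
  exact ⟨h1, h2⟩

lemma tendsto_u (c : ℝ) (hc : 0 < c) : Tendsto (fun a : ℝ => Real.exp (-(c * Real.exp (2 * a)))) atTop (𝓝 0) := by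
  have h1 : Tendsto (fun a : ℝ => c * Real.exp (2 * a)) atTop atTop :=
    (Real.tendsto_exp_atTop.comp (tendsto_id.const_mul_atTop (by norm_num : (0 : ℝ) < 2))).const_mul_atTop hc
  exact Real.tendsto_exp_neg_atTop_nhds_zero.comp h1

lemma masses_off (hRH : ∀ ρ : Zr, (zz ρ).re = 0) {w : ℂ} (h0 : 0 < w.re) (h1 : w.re < 1) (hw : w.re ≠ 1 / 2) :
    MassesConverge w := by
  have hz : riemannZeta w ≠ 0 := by
    intro h
    apply hw
    have h2 := hRH ⟨w, h, h0, h1⟩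
    rw [zz_re] at h2
    have h3 : w.re - 1 / 2 = 0 := h2
    linarith
  have hne : w ≠ 1 := by
    rintro rfl
    simp at h1
  have hord : analyticOrderNatAt riemannZeta w = 0 := by
    unfold analyticOrderNatAt
    rw [(zeta_anal hne).analyticOrderAt_eq_zero.mpr hz]
    rfl
  have hr : 0 < |w.re - 1 / 2| := abs_pos.mpr (sub_ne_zero.mpr hw)
  obtain ⟨A, hA⟩ := eventually_atTop.mp ((tendsto_u 1 one_pos).eventually_lt_const hr)
  refine ⟨1, |w.re - 1 / 2|, A, one_pos, hr, fun a haA ha φ ν hrep => ?_⟩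
  have hd : ∀ s, T φ s = 0 → |w.re - 1 / 2| ≤ ‖s - w‖ := by
    intro s hs
    have h2 := (hrep.2.1 s hs).1
    have h3 := Complex.abs_re_le_norm (s - w)
    rw [Complex.sub_re, h2, abs_sub_comm] at h3
    exact h3
  have hu := hA a haA
  have hup := (Real.exp_pos (-(1 * Real.exp (2 * a)))).le
  rw [mass_empty, mass_empty, hord]
  · simp only [Nat.cast_zero, sub_zero, abs_zero]
    exact ⟨hup, hup⟩
  · intro s hs h2
    exact absurd h2.2 (not_lt.mpr (hd s hs))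
  · intro s hs h2
    exact absurd (lt_of_le_of_lt h2 hu) (not_lt.mpr (hd s hs))

lemma masses_of (hRH : ∀ ρ : Zr, (zz ρ).re = 0) {w : ℂ} (h0 : 0 < w.re) (h1 : w.re < 1) : MassesConverge w := by
  by_cases hw : w.re = 1 / 2
  · exact masses_line hRH hw
  · exact masses_off hRH h0 h1 hw

lemma uniform_of (hRH : ∀ ρ : Zr, (zz ρ).re = 0) {η : ℝ} (h0 : 0 < η) (h2 : η ≤ 2) : ∃ A : ℝ, ∀ a : ℝ, A ≤ a → 0 < a →
    ∀ φ : ℝ → ℂ, Extremal a φ → ∀ ρ : ℂ, riemannZeta ρ = 0 → 0 < ρ.re → ρ.re < 1 →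
      |ρ.im| ≤ Real.exp ((2 - η) * a) → ∃ s : ℂ, T φ s = 0 ∧ ‖s - ρ‖ < Real.exp (-Real.exp (η / 2 * a)) := by
  obtain ⟨A, hA⟩ := XL.uniform hRH h0 h2
  refine ⟨A, fun a haA ha φ hφ ρ h3 h4 h5 h6 => ?_⟩
  rw [extremal_iff] at hφ
  obtain ⟨z, h7, h8⟩ := hA a haA ha _ hφ.mem ⟨ρ, h3, h4, h5⟩ (by
    rw [zz_im]
    exact h6)
  refine ⟨z + 1 / 2, ?_, ?_⟩
  · rw [T_add, hφ.LT_eq]
    exact h8
  · have e : z + 1 / 2 - ρ = z - zz ⟨ρ, h3, h4, h5⟩ := by
      unfold zz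
      ring
    rw [e]
    exact h7

lemma line_of {φ : ℝ → ℂ} {s : ℂ} (hs : s.re = 1 / 2) : T φ s = W.LT φ ((s.im : ℂ) * Complex.I) := by
  rw [T_eq]
  congr 1
  apply Complex.ext
  · simp [hs]
  · simp

lemma zero_line {a : ℝ} (ha : 0 < a) (hl : 0 < GA.zetaDat.low a) {φ : ℝ → ℂ} (hφ : XL.IsX GA.zetaDat a φ) {s : ℂ}
    (hs : T φ s = 0) : s.re = 1 / 2 ∧ ev a ((s.im : ℂ) * Complex.I) (hφ.1.toLp φ) = 0 := by
  have h1 : ev a (s - 1 / 2) (hφ.1.toLp φ) = 0 := by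
    rw [← hφ.LT_eq]
    exact hs
  have h2 := (XL.xt_zeros ha hl hφ.mem h1).1
  have h3 : s.re = 1 / 2 := by
    have : (s - 1 / 2).re = s.re - 1 / 2 := by simp
    rw [this] at h2
    linarith
  refine ⟨h3, ?_⟩
  rw [← hφ.LT_eq, ← line_of h3]
  exact hs

lemma mono_of {a b : ℝ} (ha : 0 < a) (hab : a < b) (hb : 0 < bottom b) {φ ψ : ℝ → ℂ} (hφ : Extremal a φ)
    (hψ : Extremal b ψ) : least b < least a ∧
    (∀ s t : ℂ, T φ s = 0 → T φ t = 0 → s.im < t.im → ∃ w : ℂ, T ψ w = 0 ∧ s.im < w.im ∧ w.im < t.im) ∧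
    ∀ x : ℝ, (T φ x).im = 0 ∧ 1 ≤ (T φ x).re ∧ (T φ x).re ≤ (T ψ x).re := by
  rw [bottom_eq] at hb
  rw [extremal_iff] at hφ hψ
  have hla := XL.low_a ha hab hb
  refine ⟨by rw [least_eq, least_eq]; exact XL.ival_lt ha hab hb, fun s t hs ht hst => ?_, fun x => ?_⟩
  · obtain ⟨y, h1, h2, h3⟩ := XL.gapM ha hab hb hφ.mem hψ.mem hst (zero_line ha hla hφ hs).2 (zero_line ha hla hφ ht).2
    refine ⟨(y : ℂ) * Complex.I + 1 / 2, ?_, ?_, ?_⟩
    · rw [T_add, hψ.LT_eq]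
      exact h1
    · simpa using h2
    · simpa using h3
  · have e : (x : ℂ) - 1 / 2 = (((x - 1 / 2 : ℝ)) : ℂ) := by push_cast; rfl
    have h1 := XL.mono_values XL.zSq ha hab hb hφ.mem hψ.mem (x - 1 / 2)
    have e1 : T φ x = ev a (((x - 1 / 2 : ℝ)) : ℂ) (hφ.1.toLp φ) := by
      rw [T_eq, hφ.LT_eq, e]
    have e2 : T ψ x = ev b (((x - 1 / 2 : ℝ)) : ℂ) (hψ.1.toLp ψ) := by
      rw [T_eq, hψ.LT_eq, e]
    rw [e1, e2]
    exact h1

lemma interlace_of (hRH : ∀ ρ : Zr, (zz ρ).re = 0) {a : ℝ} (ha : 0 < a) {φ : ℝ → ℂ} (hφ : Extremal a φ) {s t : ℂ}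
    (hs : T φ s = 0) (ht : T φ t = 0) (hst : s.im < t.im) :
    ∃ ρ : ℂ, riemannZeta ρ = 0 ∧ 0 < ρ.re ∧ ρ.re < 1 ∧ s.im < ρ.im ∧ ρ.im < t.im := by
  rw [extremal_iff] at hφ
  have hla := XL.low_pos (D := GA.zetaDat) hRH ha
  obtain ⟨ρ', h1, h2⟩ := XL.gap ha hla (XL.zSy hRH).hR (XL.zSy hRH).h0 hφ.mem hst (zero_line ha hla hφ hs).2
    (zero_line ha hla hφ ht).2
  obtain ⟨ρ, rfl⟩ : ∃ ρ : Zr, ρ = ρ' := ⟨ρ', rfl⟩
  have e : (GA.zetaDat.z ρ).im = (ρ : ℂ).im := zz_im ρ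
  rw [e] at h1 h2
  exact ⟨(ρ : ℂ), ρ.2.1, ρ.2.2.1, ρ.2.2.2, h1, h2⟩

end proofs

open Pool.Agent.Helper61 Pool.Agent.Helper61.W Pool.Agent.Helper61.W.GS Pool.Agent.V11271.LI in
/-- The extremal functions of Weil's quadratic form. -/
theorem main :
    (∀ a : ℝ, 0 < a → a ≤ Real.log 3 / 2 → 0 < bottom a) ∧
    (∀ a : ℝ, 0 < a → 0 < bottom a → ∃ (φ : ℝ → ℂ) (ν : ℂ → ℝ), Represents a φ ν ∧
      ∀ ψ : ℝ → ℂ, Extremal a ψ → ψ =ᵐ[volume] φ) ∧
    (∀ a b : ℝ, 0 < a → a < b → 0 < bottom b → ∀ φ ψ : ℝ → ℂ, Extremal a φ → Extremal b ψ →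
      least b < least a ∧
      (∀ s t : ℂ, T φ s = 0 → T φ t = 0 → s.im < t.im → ∃ w : ℂ, T ψ w = 0 ∧ s.im < w.im ∧ w.im < t.im) ∧
      ∀ x : ℝ, (T φ x).im = 0 ∧ 1 ≤ (T φ x).re ∧ (T φ x).re ≤ (T ψ x).re) ∧
    (RiemannHypothesis ↔ ∀ a : ℝ, 0 < a → 0 < bottom a) ∧
    (RiemannHypothesis ↔ ∀ a : ℝ, 0 < a → BddBelow (Vals a)) ∧
    (RiemannHypothesis ↔ AllExist) ∧
    (RiemannHypothesis →
      (∃ c A : ℝ, 0 < c ∧ ∀ a : ℝ, A ≤ a → 0 < a → 0 < least a ∧ least a ≤ Real.exp (-(c * Real.exp (2 * a)))) ∧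
      (∀ a : ℝ, 0 < a → ∀ φ : ℝ → ℂ, Extremal a φ →
        (∀ s t : ℂ, T φ s = 0 → T φ t = 0 → s.im < t.im →
          ∃ ρ : ℂ, riemannZeta ρ = 0 ∧ 0 < ρ.re ∧ ρ.re < 1 ∧ s.im < ρ.im ∧ ρ.im < t.im) ∧
        ∀ x : ℝ, (T φ x).re ≤ (xi x / xi (1 / 2)).re) ∧
      (∀ η : ℝ, 0 < η → η ≤ 2 → ∃ A : ℝ, ∀ a : ℝ, A ≤ a → 0 < a → ∀ φ : ℝ → ℂ, Extremal a φ →
        ∀ ρ : ℂ, riemannZeta ρ = 0 → 0 < ρ.re → ρ.re < 1 → |ρ.im| ≤ Real.exp ((2 - η) * a) →
          ∃ s : ℂ, T φ s = 0 ∧ ‖s - ρ‖ < Real.exp (-Real.exp (η / 2 * a))) ∧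
      (∀ w : ℂ, 0 < w.re → w.re < 1 → MassesConverge w) ∧
      ∃ P : ℂ → ℂ, ConvergeTo P ∧
        ∀ s : ℂ, HasProd (fun ρ : {ρ : ℂ // riemannZeta ρ = 0 ∧ 0 < ρ.re ∧ ρ.re < 1 ∧ 0 < ρ.im} =>
          1 - ((s - 1 / 2) / ((ρ : ℂ) - 1 / 2)) ^ 2) (P s)) ∧
    (RiemannHypothesis ∧ AllSimple ↔ AllExist ∧ ConvergeTo fun s => xi s / xi (1 / 2)) ∧
    (∀ x : ℝ, x ≠ 1 / 2 → (RiemannHypothesis ∧ AllSimple ↔ AllExist ∧ ConvergeAt (fun s => xi s / xi (1 / 2)) x)) := by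
  refine ⟨fun a ha h => bottom_log3 ha h, fun a ha hb => ?_, fun a b ha hab hb φ ψ hφ hψ => mono_of ha hab hb hφ hψ,
    ⟨fun h a ha => ?_, fun h => ?_⟩, ⟨fun h a ha => ?_, fun h => ?_⟩,
    ⟨fun h => ?_, fun h => ?_⟩, fun h => ⟨?_, ?_, ?_, ?_, ?_⟩, ⟨fun h => ?_, fun h => ?_⟩,
    fun x hx => ⟨fun h => ?_, fun h => ?_⟩⟩
  · rw [bottom_eq] at hb
    exact structure_of ha hb
  · rw [rh_iff] at h
    rw [bottom_eq]
    exact XL.low_pos (D := GA.zetaDat) h ha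
  · rw [rh_iff]
    exact rh_of_pos h
  · rw [rh_iff] at h
    obtain ⟨φ, hφ⟩ := exist_of h a ha
    exact hφ.2.2.1
  · rw [rh_iff]
    exact rh_of_bdd h
  · rw [rh_iff] at h
    exact exist_of h
  · rw [rh_iff]
    exact rh_of_exist h
  · rw [rh_iff] at h
    obtain ⟨c, A, hc, h1⟩ := XL.ival_small h
    refine ⟨c, A, hc, fun a haA ha => ?_⟩
    rw [least_eq]
    exact ⟨XL.ival_pos (D := GA.zetaDat) ha (XL.low_pos (D := GA.zetaDat) h ha), h1 a haA ha⟩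
  · intro a ha φ hφ
    rw [rh_iff] at h
    refine ⟨fun s t hs ht hst => interlace_of h ha hφ hs ht hst, fun x => ?_⟩
    rw [extremal_iff] at hφ
    have e : (x : ℂ) - 1 / 2 = (((x - 1 / 2 : ℝ)) : ℂ) := by push_cast; rfl
    obtain ⟨h1, h2, h3⟩ := XL.real_values (XL.zSy h) ha hφ.mem (x - 1 / 2)
    have e2 : T φ x = ev a (((x - 1 / 2 : ℝ)) : ℂ) (hφ.1.toLp φ) := by
      rw [T_eq, hφ.LT_eq, e]
    rw [e2, xi_div, e]
    exact h3.trans (XL.pr_le_Xn h _)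
  · intro η h0 h2
    rw [rh_iff] at h
    exact uniform_of h h0 h2
  · intro w h0 h1
    rw [rh_iff] at h
    exact masses_of h h0 h1
  · rw [rh_iff] at h
    exact ⟨Pd, convergeTo_of h, prod_upper h⟩
  · obtain ⟨h1, h2⟩ := h
    rw [rh_iff] at h1
    exact ⟨exist_of h1, to_of_simple h1 h2⟩
  · obtain ⟨h1, h2⟩ := h
    rw [rh_iff]
    exact ⟨rh_of_exist h1, simple_of_at (x := 1) (by norm_num) h1 (at_of_to h2 _)⟩
  · obtain ⟨h1, h2⟩ := h
    rw [rh_iff] at h1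
    exact ⟨exist_of h1, at_of_to (to_of_simple h1 h2) _⟩
  · obtain ⟨h1, h2⟩ := h
    rw [rh_iff]
    exact ⟨rh_of_exist h1, simple_of_at hx h1 h2⟩

end Pool.Agent.Helper61.MG.Ex
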