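import Pool.Agent.Helper61.GR.Rk

set_option autoImplicit false

/-!
# The zeros of the ground states of Weil's quadratic form

For `a > 0` Weil's quadratic form `Q` on the smooth functions supported in `[-a, a]` involves the prime powers
up to `exp (2 * a)` only. It is bounded below relative to the norm of `L²`, with greatest lower bound
`bottom a`; the ground states are the functions of `L²` at which this bound is attained (the eigenfunctions
for the lowest eigenvalue of the self-adjoint operator of `Q` on `L²(-a, a)`). The theorem describes all ground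
states for every `a`, shows that `Q` is `bottom a` times the square of the norm plus a sum of squares over the
zeros of the Laplace transform of one of them, with positive weights, and proves without hypothesis that every
zero of zeta on the critical line is a limit, as `a` tends to infinity, of zeros of the Laplace transforms of
arbitrary ground states. The Riemann hypothesis holds if and only if every nontrivial zero is such a limit, if
and only if this convergence is doubly exponentially fast, and if and only if the weights converge doubly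
exponentially fast to the multiplicities of the zeros of zeta, and to zero elsewhere.
-/

namespace Pool.Agent.Helper61.MG.Ge

open MeasureTheory Filter Topology
open scoped ContDiff ComplexConjugate Polynomial

/-- The two-sided Laplace transform, normalised at the critical line. -/
noncomputable def T (g : ℝ → ℂ) (s : ℂ) : ℂ := ∫ x : ℝ, g x * Complex.exp ((s - 1 / 2) * x)

/-- The real part of the autocorrelation. -/
noncomputable def R (g : ℝ → ℂ) (u : ℝ) : ℝ := (∫ y : ℝ, g y * conj (g (y - u))).re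

/-- Weil's quadratic form, defined by the arithmetic side of the explicit formula: the contribution of the
pole, the archimedean contribution and the sum over the prime powers. For smooth `g` of compact support it
equals the sum of `T g ρ * conj (T g (1 - conj ρ))` over the nontrivial zeros `ρ` of zeta
(`explicit_formula` below). -/
noncomputable def Q (g : ℝ → ℂ) : ℝ :=
  2 * (∫ u in Set.Ioi (0 : ℝ), R g u * Real.exp (1 / 2 * u)) -
    (Real.eulerMascheroniConstant + Real.log Real.pi) * R g 0 +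
    (∑' n : ℕ, (R g 0 / (n + 1) - 2 * ∫ u in Set.Ioi (0 : ℝ), R g u * Real.exp (-(2 * n + 5 / 2) * u))) -
    ∑' n : ℕ, 2 * (ArithmeticFunction.vonMangoldt n / Real.sqrt n) * R g (Real.log n)

/-- The smooth functions supported in `[-a, a]`. -/
def Test (a : ℝ) : Set (ℝ → ℂ) := {g | ContDiff ℝ ∞ g ∧ ∀ x, a < |x| → g x = 0}

/-- The values of the form at the test functions of norm one. -/
def Values (a : ℝ) : Set ℝ := {r | ∃ g ∈ Test a, ∫ x, ‖g x‖ ^ 2 = 1 ∧ r = Q g}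

/-- The bottom of the spectrum. -/
noncomputable def bottom (a : ℝ) : ℝ := sInf (Values a)

/-- Ground states: the nonzero functions of `L²` supported in `[-a, a]` at which the bottom of the spectrum
is attained, that is, which are limits of test functions `g n` with `Q (g n)` tending to
`bottom a * ‖φ‖²`. -/
def IsGround (a : ℝ) (φ : ℝ → ℂ) : Prop :=
  MemLp φ 2 (volume : Measure ℝ) ∧ (∀ x, a < |x| → φ x = 0) ∧ 0 < ∫ x, ‖φ x‖ ^ 2 ∧
    ∃ g : ℕ → ℝ → ℂ, (∀ n, g n ∈ Test a) ∧ Tendsto (fun n => ∫ x, ‖g n x - φ x‖ ^ 2) atTop (𝓝 0) ∧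
      Tendsto (fun n => Q (g n)) atTop (𝓝 (bottom a * ∫ x, ‖φ x‖ ^ 2))

/-- The point `w` is the limit of zeros of the transforms of ground states, for every choice of the ground
states. -/
def Approached (w : ℂ) : Prop :=
  ∀ ε : ℝ, 0 < ε → ∃ A : ℝ, ∀ a : ℝ, A ≤ a → 0 < a → ∀ φ : ℝ → ℂ, IsGround a φ →
    ∃ s : ℂ, ‖s - w‖ < ε ∧ T φ s = 0

/-- For all large `a` every ground state has a zero within `exp (-c * exp (2 * a))` of `w`. -/
def RapidlyApproached (w : ℂ) : Prop :=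
  ∃ c A : ℝ, 0 < c ∧ ∀ a : ℝ, A ≤ a → 0 < a → ∀ φ : ℝ → ℂ, IsGround a φ →
    ∃ s : ℂ, ‖s - w‖ ≤ Real.exp (-(c * Real.exp (2 * a))) ∧ T φ s = 0

/-- The form is `bottom a` times the square of the norm plus the sum of squares over the zeros of the transform
of the ground state `ψ`, which are simple and on the critical line, with the positive weights `ν`. -/
def Represents (a : ℝ) (ψ : ℝ → ℂ) (ν : ℂ → ℝ) : Prop :=
  IsGround a ψ ∧ (∀ s : ℂ, T ψ s = 0 → s.re = 1 / 2 ∧ deriv (T ψ) s ≠ 0 ∧ 0 < ν s) ∧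
    ∀ g ∈ Test a, HasSum (fun s : {s : ℂ // T ψ s = 0} => ν s * ‖T g s‖ ^ 2) (Q g - bottom a * ∫ x, ‖g x‖ ^ 2)

/-- The sum of the weights of the zeros in the set `B`. -/
noncomputable def mass (ψ : ℝ → ℂ) (ν : ℂ → ℝ) (B : Set ℂ) : ℝ := ∑' s : {s : ℂ // T ψ s = 0 ∧ s ∈ B}, ν s

/-- Near `w` the weights converge doubly exponentially fast to the multiplicity of `w` as a zero of zeta: with
`u = exp (-c * exp (2 * a))` the sum of the weights of the zeros within `u` of `w` differs from the order of zeta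
at `w` by at most `u`, and the sum of the weights of the other zeros within `r` of `w` is at most `u`. -/
def MassesConverge (w : ℂ) : Prop :=
  ∃ c r A : ℝ, 0 < c ∧ 0 < r ∧ ∀ a : ℝ, A ≤ a → 0 < a → ∀ (ψ : ℝ → ℂ) (ν : ℂ → ℝ), Represents a ψ ν →
    |mass ψ ν {s | ‖s - w‖ ≤ Real.exp (-(c * Real.exp (2 * a)))} - (analyticOrderNatAt riemannZeta w : ℝ)| ≤
        Real.exp (-(c * Real.exp (2 * a))) ∧
      mass ψ ν {s | Real.exp (-(c * Real.exp (2 * a))) < ‖s - w‖ ∧ ‖s - w‖ < r} ≤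
        Real.exp (-(c * Real.exp (2 * a)))

section proofs

open Pool.Agent.Helper61 Pool.Agent.Helper61.W Pool.Agent.Helper61.W.GS Pool.Agent.V11271.LI

lemma Q_eq {a : ℝ} {g : ℝ → ℂ} (hg : g ∈ Test a) : Q g = (Wf g g).re := by
  have h : g ∈ Ts a := hg
  rw [Wf_self (Ts.tf h), Complex.ofReal_re]
  rfl

/-- Weil's explicit formula. -/
theorem explicit_formula {a : ℝ} {g : ℝ → ℂ} (hg : g ∈ Test a) :
    HasSum (fun ρ : {ρ : ℂ // riemannZeta ρ = 0 ∧ 0 < ρ.re ∧ ρ.re < 1} =>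
      (analyticOrderNatAt riemannZeta (ρ : ℂ) : ℂ) * (T g ρ * conj (T g (1 - conj (ρ : ℂ))))) (Q g : ℂ) := by
  have h : g ∈ Ts a := hg
  have h1 := (summable_wt (Ts.tf h) (Ts.tf h)).hasSum
  have e : (Q g : ℂ) = ∑' ρ : Zr, wt g g ρ := by
    have h2 : Wf g g = ∑' ρ : Zr, wt g g ρ := rfl
    rw [← h2, Wf_self (Ts.tf h)]
    rfl
  rw [← e] at h1
  have e2 : (fun ρ : {ρ : ℂ // riemannZeta ρ = 0 ∧ 0 < ρ.re ∧ ρ.re < 1} =>
      (analyticOrderNatAt riemannZeta (ρ : ℂ) : ℂ) * (T g ρ * conj (T g (1 - conj (ρ : ℂ))))) = wt g g := by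
    funext ρ
    have e3 : 1 - conj (ρ : ℂ) - 1 / 2 = -conj (zz ρ) := by
      unfold zz
      rw [map_sub]
      have : conj (1 / 2 : ℂ) = 1 / 2 := by
        have : (1 / 2 : ℂ) = ((1 / 2 : ℝ) : ℂ) := by push_cast; rfl
        rw [this, Complex.conj_ofReal]
      rw [this]
      ring
    have e4 : T g (1 - conj (ρ : ℂ)) = LT g (-conj (zz ρ)) := by
      rw [← e3]
      rfl
    have e5 : ((mm ρ : ℝ) : ℂ) = (analyticOrderNatAt riemannZeta (ρ : ℂ) : ℂ) := by
      unfold mm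
      push_cast
      rfl
    rw [e4]
    unfold wt
    rw [e5]
    rfl
  rw [e2]
  exact h1

lemma values_eq (a : ℝ) : Values a =
    {r : ℝ | ∃ g : ℝ → ℂ, g ∈ Ts a ∧ ∫ x, ‖g x‖ ^ 2 = 1 ∧ r = (GA.zetaDat.Wf g g).re} := by
  ext r
  constructor
  · rintro ⟨g, hg, h1, h2⟩
    exact ⟨g, hg, h1, by rw [h2, Q_eq hg, GA.zeta_Wf]⟩
  · rintro ⟨g, hg, h1, h2⟩
    exact ⟨g, hg, h1, by rw [h2, Q_eq (a := a) hg, GA.zeta_Wf]⟩

lemma bottom_eq (a : ℝ) : bottom a = GA.zetaDat.low a := by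
  unfold bottom GA.Dat.low
  rw [values_eq]

lemma isGround_iff (a : ℝ) (φ : ℝ → ℂ) : IsGround a φ ↔ GA.zetaDat.IsG a φ := by
  unfold IsGround GA.Dat.IsG
  rw [bottom_eq]
  constructor
  · rintro ⟨h1, h2, h3, g, hg, h4, h5⟩
    exact ⟨h1, h2, h3, g, hg, h4, h5.congr fun n => Q_eq (hg n)⟩
  · rintro ⟨h1, h2, h3, g, hg, h4, h5⟩
    exact ⟨h1, h2, h3, g, hg, h4, h5.congr fun n => (Q_eq (a := a) (hg n)).symm⟩

lemma T_eq (φ : ℝ → ℂ) (s : ℂ) : T φ s = W.LT φ (s - 1 / 2) := rfl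

lemma T_add (φ : ℝ → ℂ) (z : ℂ) : T φ (z + 1 / 2) = W.LT φ z := by
  rw [T_eq, add_sub_cancel_right]

lemma approached_of {w : ℂ} (h : ∀ ε : ℝ, 0 < ε → ∃ A : ℝ, ∀ a : ℝ, A ≤ a → 0 < a → ∀ φ : ℝ → ℂ,
    GA.zetaDat.IsG a φ → ∃ z : ℂ, ‖z - (w - 1 / 2)‖ < ε ∧ W.LT φ z = 0) : Approached w := by
  intro ε hε
  obtain ⟨A, hA⟩ := h ε hε
  refine ⟨A, fun a haA ha φ hφ => ?_⟩
  rw [isGround_iff] at hφ
  obtain ⟨z, h1, h2⟩ := hA a haA ha φ hφ
  refine ⟨z + 1 / 2, ?_, ?_⟩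
  · have e : z + 1 / 2 - w = z - (w - 1 / 2) := by ring
    rw [e]
    exact h1
  · rw [T_add]
    exact h2

/-- the zeros in the two normalisations -/
noncomputable def zeroEquiv (ψ : ℝ → ℂ) : {z : ℂ // W.LT ψ z = 0} ≃ {s : ℂ // T ψ s = 0} where
  toFun z := ⟨z + 1 / 2, by rw [T_add]; exact z.2⟩
  invFun s := ⟨s - 1 / 2, s.2⟩
  left_inv z := Subtype.ext (by simp)
  right_inv s := Subtype.ext (by simp)

lemma structure_of {a : ℝ} (ha : 0 < a) : BddBelow (Values a) ∧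
    ∃ (ψ : ℝ → ℂ) (d : ℕ) (ν : ℂ → ℝ), Represents a ψ ν ∧
      ∀ F : ℂ → ℂ, (∃ φ : ℝ → ℂ, IsGround a φ ∧ T φ = F) ↔
        ∃ p : ℂ[X], p ≠ 0 ∧ p.natDegree < d ∧ ∀ s, F s = p.eval s * T ψ s := by
  refine ⟨by rw [values_eq]; exact GA.low_bdd ha, ?_⟩
  obtain ⟨ψ, d, ν, hψ, hz, hs, hp⟩ := GA.structure_fun GA.zetaDat ha
  refine ⟨ψ, d, fun s => ν (s - 1 / 2), ⟨(isGround_iff a ψ).mpr hψ, ?_, ?_⟩, ?_⟩
  · intro s h
    obtain ⟨h1, h2, h3⟩ := hz (s - 1 / 2) h
    refine ⟨?_, ?_, h3⟩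
    · have : (s - 1 / 2).re = s.re - 1 / 2 := by simp
      rw [this] at h1
      linarith
    · have e : T ψ = fun s => W.LT ψ (s - 1 / 2) := rfl
      rw [e, deriv_comp_sub_const (f := W.LT ψ)]
      exact h2
  · intro g hg
    have h1 := hs g hg
    rw [Q_eq hg, bottom_eq, ← (zeroEquiv ψ).hasSum_iff]
    refine Eq.mp (congrArg (fun f => HasSum f _) ?_) h1
    funext z
    show ν z * ‖W.LT g z‖ ^ 2 = ν ((z : ℂ) + 1 / 2 - 1 / 2) * ‖T g ((z : ℂ) + 1 / 2)‖ ^ 2
    rw [T_add, add_sub_cancel_right]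
  · intro F
    constructor
    · rintro ⟨φ, hφ, rfl⟩
      rw [isGround_iff] at hφ
      obtain ⟨p, h1, h2, h3⟩ := (hp (W.LT φ)).mp ⟨φ, hφ, rfl⟩
      refine ⟨p.comp (Polynomial.X - Polynomial.C (1 / 2)), ?_, ?_, fun s => ?_⟩
      · intro h4
        apply h1
        have h5 := congrArg (fun q : ℂ[X] => q.comp (Polynomial.X + Polynomial.C (1 / 2))) h4
        simp only [Polynomial.zero_comp] at h5
        rw [Polynomial.comp_assoc, Polynomial.sub_comp, Polynomial.X_comp, Polynomial.C_comp, add_sub_cancel_right,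
          Polynomial.comp_X] at h5
        exact h5
      · rw [Polynomial.natDegree_comp, Polynomial.natDegree_X_sub_C, mul_one]
        exact h2
      · rw [T_eq, T_eq, h3, Polynomial.eval_comp, Polynomial.eval_sub, Polynomial.eval_X, Polynomial.eval_C]
    · rintro ⟨p, h1, h2, h3⟩
      obtain ⟨φ, hφ, h4⟩ := (hp (fun z => (p.comp (Polynomial.X + Polynomial.C (1 / 2))).eval z * W.LT ψ z)).mpr
        ⟨p.comp (Polynomial.X + Polynomial.C (1 / 2)), by
          intro h4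
          apply h1
          have h5 := congrArg (fun q : ℂ[X] => q.comp (Polynomial.X - Polynomial.C (1 / 2))) h4
          simp only [Polynomial.zero_comp] at h5
          rw [Polynomial.comp_assoc, Polynomial.add_comp, Polynomial.X_comp, Polynomial.C_comp, sub_add_cancel,
            Polynomial.comp_X] at h5
          exact h5, by
          rw [Polynomial.natDegree_comp, Polynomial.natDegree_X_add_C, mul_one]
          exact h2, fun z => rfl⟩
      refine ⟨φ, (isGround_iff a φ).mpr hφ, funext fun s => ?_⟩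
      rw [T_eq, h4, h3, T_eq]
      simp only
      rw [Polynomial.eval_comp, Polynomial.eval_add, Polynomial.eval_X, Polynomial.eval_C, sub_add_cancel]

lemma mass_eq (ψ : ℝ → ℂ) (ν : ℂ → ℝ) (P : ℂ → Prop) [DecidablePred P] :
    mass ψ ν {s | P s} = ∑' s : {s : ℂ // T ψ s = 0}, if P s then ν s else 0 := by
  have h1 : mass ψ ν {s | P s} = ∑' s : ℂ, Set.indicator {s : ℂ | T ψ s = 0 ∧ P s} ν s :=
    tsum_subtype {s : ℂ | T ψ s = 0 ∧ P s} ν
  have h2 : (∑' s : {s : ℂ // T ψ s = 0}, if P s then ν s else 0) =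
      ∑' s : ℂ, Set.indicator {s : ℂ | T ψ s = 0} (fun s => if P s then ν s else 0) s :=
    tsum_subtype {s : ℂ | T ψ s = 0} (fun s => if P s then ν s else 0)
  rw [h1, h2]
  refine tsum_congr fun s => ?_
  by_cases h3 : T ψ s = 0
  · by_cases h4 : P s
    · rw [Set.indicator_of_mem (show s ∈ {s : ℂ | T ψ s = 0 ∧ P s} from ⟨h3, h4⟩),
        Set.indicator_of_mem (show s ∈ {s : ℂ | T ψ s = 0} from h3), if_pos h4]
    · rw [Set.indicator_of_notMem (show s ∉ {s : ℂ | T ψ s = 0 ∧ P s} from fun h => h4 h.2),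
        Set.indicator_of_mem (show s ∈ {s : ℂ | T ψ s = 0} from h3), if_neg h4]
  · rw [Set.indicator_of_notMem (show s ∉ {s : ℂ | T ψ s = 0 ∧ P s} from fun h => h3 h.1),
      Set.indicator_of_notMem (show s ∉ {s : ℂ | T ψ s = 0} from h3)]

lemma mass_empty {ψ : ℝ → ℂ} {ν : ℂ → ℝ} {B : Set ℂ} (h : ∀ s, T ψ s = 0 → s ∉ B) : mass ψ ν B = 0 := by
  have : IsEmpty {s : ℂ // T ψ s = 0 ∧ s ∈ B} := ⟨fun s => h s.1 s.2.1 s.2.2⟩
  unfold mass
  exact tsum_empty

lemma traceF_of {a : ℝ} {ψ : ℝ → ℂ} {ν : ℂ → ℝ} (h : Represents a ψ ν) :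
    GR.TraceF GA.zetaDat a (fun s : {s : ℂ // T ψ s = 0} => (s : ℂ) - 1 / 2) (fun s => ν s) := by
  obtain ⟨_, h1, h2⟩ := h
  refine ⟨fun s => ?_, fun s => (h1 s s.2).2.2.le, fun g => ?_⟩
  · have := (h1 s s.2).1
    simp [this]
  · have h3 := h2 g g.2
    rw [Q_eq g.2, bottom_eq] at h3
    rw [norm_toL]
    exact h3

lemma masses_line (hRH : ∀ ρ : Zr, (zz ρ).re = 0) {w : ℂ} (hw : w.re = 1 / 2) : MassesConverge w := by
  classical
  have hw' : (w - 1 / 2).re = 0 := by simp [hw]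
  obtain ⟨c, r, A, hc, hr, h⟩ := GR.zeta_mass hRH hw'
  refine ⟨c, r, A, hc, hr, fun a haA ha ψ ν hrep => ?_⟩
  obtain ⟨h1, h2⟩ := h a haA ha _ _ _ (traceF_of hrep)
  have e : ∀ s : {s : ℂ // T ψ s = 0}, (s : ℂ) - 1 / 2 - (w - 1 / 2) = (s : ℂ) - w := fun s => by ring
  have e2 : 1 / 2 + (w - 1 / 2) = w := by ring
  simp only [e] at h1 h2
  rw [e2] at h1
  rw [mass_eq, mass_eq]
  exact ⟨h1, h2⟩

lemma tendsto_u (c : ℝ) (hc : 0 < c) : Tendsto (fun a : ℝ => Real.exp (-(c * Real.exp (2 * a)))) atTop (𝓝 0) := by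
  have h1 : Tendsto (fun a : ℝ => c * Real.exp (2 * a)) atTop atTop :=
    (Real.tendsto_exp_atTop.comp (tendsto_id.const_mul_atTop (by norm_num : (0 : ℝ) < 2))).const_mul_atTop hc
  exact Real.tendsto_exp_neg_atTop_nhds_zero.comp h1

lemma masses_off (hRH : ∀ ρ : Zr, (zz ρ).re = 0) {w : ℂ} (h0 : 0 < w.re) (h1 : w.re < 1) (hw : w.re ≠ 1 / 2) :
    MassesConverge w := by
  have hz : riemannZeta w ≠ 0 := by
    intro h
    apply hw
    have h2 := hRH ⟨w, h, h0, h1⟩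
    rw [zz_re] at h2
    have h3 : w.re - 1 / 2 = 0 := h2
    linarith
  have hne : w ≠ 1 := by
    rintro rfl
    simp at h1
  have hord : analyticOrderNatAt riemannZeta w = 0 := by
    unfold analyticOrderNatAt
    rw [(zeta_anal hne).analyticOrderAt_eq_zero.mpr hz]
    rfl
  have hr : 0 < |w.re - 1 / 2| := abs_pos.mpr (sub_ne_zero.mpr hw)
  obtain ⟨A, hA⟩ := eventually_atTop.mp ((tendsto_u 1 one_pos).eventually_lt_const hr)
  refine ⟨1, |w.re - 1 / 2|, A, one_pos, hr, fun a haA ha ψ ν hrep => ?_⟩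
  have hd : ∀ s, T ψ s = 0 → |w.re - 1 / 2| ≤ ‖s - w‖ := by
    intro s hs
    have h2 := (hrep.2.1 s hs).1
    have h3 := Complex.abs_re_le_norm (s - w)
    rw [Complex.sub_re, h2, abs_sub_comm] at h3
    exact h3
  have hu := hA a haA
  have hup := (Real.exp_pos (-(1 * Real.exp (2 * a)))).le
  rw [mass_empty, mass_empty, hord]
  · simp only [Nat.cast_zero, sub_zero, abs_zero]
    exact ⟨hup, hup⟩
  · intro s hs h2
    exact absurd h2.2 (not_lt.mpr (hd s hs))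
  · intro s hs h2
    exact absurd (lt_of_le_of_lt h2 hu) (not_lt.mpr (hd s hs))

lemma exists_zero_of {w : ℂ} (hord : 1 ≤ analyticOrderNatAt riemannZeta w) {u : ℝ} {ψ : ℝ → ℂ} {ν : ℂ → ℝ}
    (hu : u < 1) (h : |mass ψ ν {s | ‖s - w‖ ≤ u} - (analyticOrderNatAt riemannZeta w : ℝ)| ≤ u) :
    ∃ s : ℂ, ‖s - w‖ ≤ u ∧ T ψ s = 0 := by
  by_contra hcon
  push Not at hcon
  have h0 : mass ψ ν {s | ‖s - w‖ ≤ u} = 0 := mass_empty fun s hs h2 => hcon s h2 hs
  rw [h0, zero_sub, abs_neg, Nat.abs_cast] at h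
  have h2 : (1 : ℝ) ≤ (analyticOrderNatAt riemannZeta w : ℝ) := by exact_mod_cast hord
  linarith

lemma order_pos {ρ : ℂ} (h1 : riemannZeta ρ = 0) (h2 : 0 < ρ.re) (h3 : ρ.re < 1) :
    1 ≤ analyticOrderNatAt riemannZeta ρ := by
  have h := mm_one_le ⟨ρ, h1, h2, h3⟩
  unfold mm at h
  exact_mod_cast h

lemma rapid_of_masses {ρ : ℂ} (h1 : riemannZeta ρ = 0) (h2 : 0 < ρ.re) (h3 : ρ.re < 1) (h : MassesConverge ρ) :
    RapidlyApproached ρ := by
  obtain ⟨c, r, A, hc, hr, h⟩ := h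
  refine ⟨c, A, hc, fun a haA ha φ hφ => ?_⟩
  obtain ⟨_, ψ, d, ν, hrep, hF⟩ := structure_of ha
  obtain ⟨p, hp0, hp1, hp2⟩ := (hF (T φ)).mp ⟨φ, hφ, rfl⟩
  have hu : Real.exp (-(c * Real.exp (2 * a))) < 1 := by
    rw [Real.exp_lt_one_iff]
    have : 0 < c * Real.exp (2 * a) := by positivity
    linarith
  obtain ⟨s, hs1, hs2⟩ := exists_zero_of (order_pos h1 h2 h3) hu (h a haA ha ψ ν hrep).1
  exact ⟨s, hs1, by rw [hp2, hs2, mul_zero]⟩

lemma approached_of_rapid {w : ℂ} (h : RapidlyApproached w) : Approached w := by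
  obtain ⟨c, A, hc, h⟩ := h
  intro ε hε
  obtain ⟨A1, hA1⟩ := eventually_atTop.mp ((tendsto_u c hc).eventually_lt_const hε)
  refine ⟨max A A1, fun a haA ha φ hφ => ?_⟩
  obtain ⟨s, h1, h2⟩ := h a ((le_max_left _ _).trans haA) ha φ hφ
  exact ⟨s, lt_of_le_of_lt h1 (hA1 a ((le_max_right _ _).trans haA)), h2⟩

lemma rh_of_approached (h : ∀ ρ : ℂ, riemannZeta ρ = 0 → 0 < ρ.re → ρ.re < 1 → Approached ρ) :
    RiemannHypothesis := by
  rw [rh_iff]
  intro ρ
  by_contra hne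
  obtain ⟨A, hA⟩ := h ρ ρ.2.1 ρ.2.2.1 ρ.2.2.2 |(zz ρ).re| (abs_pos.mpr hne)
  have hap : 0 < max A 1 := lt_of_lt_of_le one_pos (le_max_right _ _)
  obtain ⟨_, ψ, d, ν, ⟨hψ, hr, _⟩, _⟩ := structure_of hap
  obtain ⟨s, h2, h3⟩ := hA (max A 1) (le_max_left _ _) hap ψ hψ
  have h4 := (hr s h3).1
  have h5 := Complex.abs_re_le_norm (s - ρ)
  rw [Complex.sub_re, h4] at h5
  rw [zz_re] at h2
  have h6 : |(1 : ℝ) / 2 - (ρ : ℂ).re| = |(ρ : ℂ).re - 1 / 2| := abs_sub_comm _ _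
  rw [h6] at h5
  exact absurd h2 (not_lt.mpr h5)

end proofs

open Pool.Agent.Helper61 Pool.Agent.Helper61.W Pool.Agent.Helper61.W.GS Pool.Agent.V11271.LI in
/-- The zeros of the ground states of Weil's quadratic form. -/
theorem main :
    (∀ a : ℝ, 0 < a → BddBelow (Values a) ∧ ∃ (ψ : ℝ → ℂ) (d : ℕ) (ν : ℂ → ℝ), Represents a ψ ν ∧
      ∀ F : ℂ → ℂ, (∃ φ : ℝ → ℂ, IsGround a φ ∧ T φ = F) ↔
        ∃ p : ℂ[X], p ≠ 0 ∧ p.natDegree < d ∧ ∀ s, F s = p.eval s * T ψ s) ∧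
    (∀ ρ : ℂ, riemannZeta ρ = 0 → ρ.re = 1 / 2 → Approached ρ) ∧
    (RiemannHypothesis ↔ ∀ ρ : ℂ, riemannZeta ρ = 0 → 0 < ρ.re → ρ.re < 1 → Approached ρ) ∧
    (RiemannHypothesis ↔ ∀ ρ : ℂ, riemannZeta ρ = 0 → 0 < ρ.re → ρ.re < 1 → RapidlyApproached ρ) ∧
    (RiemannHypothesis ↔ ∀ w : ℂ, 0 < w.re → w.re < 1 → MassesConverge w) := by
  obtain ⟨_, happ, _⟩ := GA.main GA.zetaDat
  have hcrit : ∀ ρ : ℂ, riemannZeta ρ = 0 → ρ.re = 1 / 2 → Approached ρ := by
    intro ρ h1 h2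
    set ρ' : Zr := ⟨ρ, h1, by rw [h2]; norm_num, by rw [h2]; norm_num⟩ with hρ'
    exact approached_of fun ε hε => happ ρ' (by
      show (zz ρ').re = 0
      rw [zz_re]
      show ρ.re - 1 / 2 = 0
      rw [h2]
      norm_num) ε hε
  have hmass : RiemannHypothesis → ∀ w : ℂ, 0 < w.re → w.re < 1 → MassesConverge w := by
    intro hRH w h0 h1
    rw [rh_iff] at hRH
    by_cases hw : w.re = 1 / 2
    · exact masses_line hRH hw
    · exact masses_off hRH h0 h1 hw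
  refine ⟨fun a ha => structure_of ha, hcrit, ⟨?_, rh_of_approached⟩, ⟨?_, ?_⟩, ⟨hmass, ?_⟩⟩
  · intro hRH ρ h1 h2 h3
    exact approached_of_rapid (rapid_of_masses h1 h2 h3 (hmass hRH ρ h2 h3))
  · intro hRH ρ h1 h2 h3
    exact rapid_of_masses h1 h2 h3 (hmass hRH ρ h2 h3)
  · intro h
    exact rh_of_approached fun ρ h1 h2 h3 => approached_of_rapid (h ρ h1 h2 h3)
  · intro h
    exact rh_of_approached fun ρ h1 h2 h3 => approached_of_rapid (rapid_of_masses h1 h2 h3 (h ρ h2 h3))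

end Pool.Agent.Helper61.MG.Ge
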